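import Pool.Graph.R_pool_sql_team_seeded_2aa45f1a.Q287.BA.TriP
import Pool.Agent.H447.IPX.H201_Core

/-!
# Self-correction with bounded advice which may depend on the size

The inputs `x` have multiples `mul (x, n)` with the same answer. If for infinitely many sizes `N` one of
`k` partial algorithms fails for few inputs of size at most `N` only, then the problem is decidable. The
proof follows `self_correction` of `Pool/Agent/H201/AD/Self.lean`.
-/

set_option autoImplicit false

namespace Pool.Agent.H447.RA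

open Filter Pool.Agent.Q324.SC Pool.Agent.Q287.BA

lemma primrec_pow (p : ℕ) : Primrec fun n : ℕ => n ^ p := by
  induction p with
  | zero => simpa using Primrec.const (α := ℕ) 1
  | succ p ih => exact (Primrec.nat_mul.comp ih Primrec.id).of_eq fun n => by rw [pow_succ]; rfl

/-- stages at which there are few failures -/
lemma stages {e : ℕ → ℕ} {r : ℕ → Bool} (he : Computable e) (hr : Computable r) (p : ℕ)
    (hdens : ∀ m, ∃ N ≥ m, r N = true ∧ m * (e N + 1) ^ p ≤ N) :
    ∃ ν : ℕ → ℕ, Computable ν ∧ ∀ m, r (ν m) = true ∧ m * (e (ν m) + 1) ^ p ≤ ν m := by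
  have hc : Computable₂ fun m N : ℕ => (r N && decide (m * (e N + 1) ^ p ≤ N)) := by
    have h1 : Computable fun x : ℕ × ℕ => x.1 * (e x.2 + 1) ^ p :=
      Primrec.nat_mul.to_comp.comp Computable.fst
        ((primrec_pow p).to_comp.comp (Computable.succ.comp (he.comp Computable.snd)))
    have h2 : Computable fun x : ℕ × ℕ => decide (x.1 * (e x.2 + 1) ^ p ≤ x.2) :=
      (Primrec.nat_le.decide.to_comp).comp h1 Computable.snd
    exact Primrec.and.to_comp.comp (hr.comp Computable.snd) h2
  obtain ⟨ν, hν, h⟩ := Pool.Agent.H201.AD.exists_computable_find hc (fun m => by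
    obtain ⟨N, _, h1, h2⟩ := hdens m
    exact ⟨N, by simp [h1, h2]⟩)
  refine ⟨ν, hν, fun m => ?_⟩
  have := h m
  simp only [Bool.and_eq_true, decide_eq_true_eq] at this
  exact this

attribute [local irreducible] Tz.maj cnt

/-- **Bounded advice and few failures.** -/
theorem adv {X Y : Type} [Primcodable X] {P T : X → Prop} (k : ℕ) {A : ℕ × (ℕ × X) →. Bool}
    (hA : Partrec A) (π : X → Y) {sz : X → ℕ} (hsz : Computable sz)
    {mul : X × ℕ → X} (hmul : Computable mul) (p : ℕ)
    (hinj : ∀ x, P x → Function.Injective fun n => π (mul (x, n)))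
    (hsize : ∀ x n, P x → sz (mul (x, n)) ≤ sz x * (n + 1) ^ p)
    (hP : ∀ x n, P x → P (mul (x, n)))
    (hT : ∀ x n, P x → (T (mul (x, n)) ↔ T x))
    {e : ℕ → ℕ} {r : ℕ → Bool} (he : Computable e) (hr : Computable r)
    (hdens : ∀ m, ∃ N ≥ m, r N = true ∧ m * (e N + 1) ^ p ≤ N)
    (h : ∀ N, r N = true → ∃ i < k, ∃ S : Set Y, S.encard ≤ (e N : ℕ∞) ∧
      ∀ x, P x → sz x ≤ N → π x ∉ S → ∃ b ∈ A (i, (N, x)), (b = true ↔ T x)) :
    ∃ D : X →. Bool, Partrec D ∧ ∀ x, P x → ∃ b, D x = Part.some b ∧ (b = true ↔ T x) := by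
  classical
  obtain ⟨ν, hν, hν2⟩ := stages he hr p hdens
  obtain ⟨st, cst, mst, vst⟩ := Partial.stages hA
  obtain ⟨F, hF⟩ : ∃ F : (ℕ × ℕ) × X × ℕ → Option Bool, F = fun z =>
    Tz.maj (fun j => st (z.1.1, (z.1.2, (ν z.2.2, mul (z.2.1, j))))) (2 * e (ν z.2.2) + 1) := ⟨_, rfl⟩
  have cnum : Computable fun x : X × ℕ => 2 * e (ν x.2) + 1 :=
    Computable.succ.comp ((Primrec.nat_mul.comp (Primrec.const 2) Primrec.id).to_comp.comp
      (he.comp (hν.comp Computable.snd)))
  have cF : Computable F := by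
    rw [hF]
    refine Tz.maj_comp (f := fun (z : (ℕ × ℕ) × X × ℕ) j =>
      st (z.1.1, (z.1.2, (ν z.2.2, mul (z.2.1, j))))) ?_ (cnum.comp Computable.snd)
    have d1 : Computable (fun w : ((ℕ × ℕ) × X × ℕ) × ℕ => w.1.1.1) :=
      Computable.fst.comp (Computable.fst.comp Computable.fst)
    have d2 : Computable (fun w : ((ℕ × ℕ) × X × ℕ) × ℕ => w.1.1.2) :=
      Computable.snd.comp (Computable.fst.comp Computable.fst)
    have d3 : Computable (fun w : ((ℕ × ℕ) × X × ℕ) × ℕ => ν w.1.2.2) :=
      hν.comp (Computable.snd.comp (Computable.snd.comp Computable.fst))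
    have d4 : Computable (fun w : ((ℕ × ℕ) × X × ℕ) × ℕ => mul (w.1.2.1, w.2)) :=
      hmul.comp ((Computable.fst.comp (Computable.snd.comp Computable.fst)).pair Computable.snd)
    exact cst.comp (d1.pair (d2.pair (d3.pair d4)))
  have cadm : Computable fun z : X × ℕ => decide (sz z.1 * 2 ^ p ≤ z.2) :=
    (Primrec.nat_le.decide.to_comp).comp
      ((Primrec.nat_mul.comp Primrec.id (Primrec.const (2 ^ p))).to_comp.comp
        (hsz.comp Computable.fst)) Computable.snd
  refine Partial.corep (X := X) (P := P) (T := T) (k := k) cF cadm ?_ ?_ ?_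
  · intro s s' i x N b hs hb
    rw [hF] at hb ⊢
    exact Tz.maj_mono (fun j _ b hj => mst s s' _ b hs hj) hb
  · intro x _
    refine Filter.eventually_atTop.2 ⟨sz x * 2 ^ p, fun N hN => ?_⟩
    exact decide_eq_true hN
  · intro m
    obtain ⟨h1, h2⟩ := hν2 m
    obtain ⟨i, hi, S, hS, hS2⟩ := h (ν m) h1
    refine ⟨i, hi, fun x hx hm => ?_⟩
    have hm' : sz x * 2 ^ p ≤ m := of_decide_eq_true hm
    have hsz2 : ∀ j < 2 * e (ν m) + 1, sz (mul (x, j)) ≤ ν m := by
      intro j hj
      refine (hsize x j hx).trans (le_trans ?_ h2)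
      calc sz x * (j + 1) ^ p ≤ sz x * (2 * (e (ν m) + 1)) ^ p :=
            Nat.mul_le_mul le_rfl (Nat.pow_le_pow_left (by omega) p)
        _ = sz x * 2 ^ p * (e (ν m) + 1) ^ p := by rw [mul_pow]; ring
        _ ≤ m * (e (ν m) + 1) ^ p := Nat.mul_le_mul hm' le_rfl
    have key : 2 * e (ν m) + 1 <
        2 * cnt (fun j => decide (π (mul (x, j)) ∉ S)) (2 * e (ν m) + 1) := by
      rw [cnt_eq]
      have hc : ((Finset.range (2 * e (ν m) + 1)).filter fun j => π (mul (x, j)) ∈ S).card
          ≤ e (ν m) := by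
        have h3 : ((((Finset.range (2 * e (ν m) + 1)).filter fun j => π (mul (x, j)) ∈ S).card :
            ℕ) : ℕ∞) ≤ (e (ν m) : ℕ∞) := by
          refine le_trans ?_ hS
          rw [← Set.encard_coe_eq_coe_finsetCard, ← (hinj x hx).injOn.encard_image]
          refine Set.encard_le_encard ?_
          rintro _ ⟨j, hj, rfl⟩
          rw [Finset.mem_coe, Finset.mem_filter] at hj
          exact hj.2
        exact_mod_cast h3
      have hs := Finset.card_filter_add_card_filter_not (s := Finset.range (2 * e (ν m) + 1))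
        (fun j => π (mul (x, j)) ∈ S)
      rw [Finset.card_range] at hs
      have h4 : ((Finset.range (2 * e (ν m) + 1)).filter
          fun j => decide (π (mul (x, j)) ∉ S) = true) =
          ((Finset.range (2 * e (ν m) + 1)).filter fun j => ¬ π (mul (x, j)) ∈ S) := by
        apply Finset.filter_congr
        intro j _
        simp
      rw [h4]
      omega
    obtain ⟨s, hs⟩ := Tri.votep (st := st) mst (b := decide (T x))
      (e := fun j => (i, (ν m, mul (x, j)))) key (by
        intro j hj hg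
        have hg' : π (mul (x, j)) ∉ S := of_decide_eq_true hg
        obtain ⟨b, hb, hb2⟩ := hS2 (mul (x, j)) (hP x j hx) (hsz2 j hj) hg'
        rw [hT x j hx] at hb2
        have e3 : b = decide (T x) := by
          rw [Bool.eq_iff_iff, decide_eq_true_eq]
          exact hb2
        rw [e3] at hb
        exact (vst _ _).2 hb)
    exact ⟨s, decide (T x), by rw [hF]; exact hs, by simp⟩

end Pool.Agent.H447.RA
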