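import Pool.Agent.H447.RA.Adv

/-!
# Bounded advice: functions on the integers which do not depend on cubic factors
-/

set_option autoImplicit false

namespace Pool.Agent.H447.RA

lemma int_mul_comp : Computable fun x : (ℤ × ℕ) × ℕ => (x.1.1 * (((x.2 + 1) ^ 3 : ℕ) : ℤ), x.1.2) := by
  have h1 : Computable fun x : (ℤ × ℕ) × ℕ => (((x.2 + 1) ^ 3 : ℕ) : ℤ) := by
    have : Primrec fun x : (ℤ × ℕ) × ℕ => (((x.2 + 1) ^ 3 : ℕ) : ℤ) := by fun_prop
    exact this.to_comp
  have h2 : Computable fun x : (ℤ × ℕ) × ℕ => x.1.1 * (((x.2 + 1) ^ 3 : ℕ) : ℤ) := by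
    have : Primrec fun x : (ℤ × ℕ) × ℕ => x.1.1 * (((x.2 + 1) ^ 3 : ℕ) : ℤ) := by fun_prop
    exact this.to_comp
  exact h2.pair (Computable.snd.comp Computable.fst)

theorem adv_fun {f : ℤ → ℕ} (h0 : f 0 = 0) (hf : ∀ (B : ℤ) (n : ℕ), B ≠ 0 →
    f (B * (((n + 1) ^ 3 : ℕ) : ℤ)) = f B) (k : ℕ) {A : ℕ × ℕ × ℤ →. ℕ} (hA : Partrec A)
    {e : ℕ → ℕ} {r : ℕ → Bool} (he : Computable e) (hr : Computable r)
    (hdens : ∀ m, ∃ N ≥ m, r N = true ∧ m * (e N + 1) ^ 3 ≤ N)
    (h : ∀ N, r N = true → ∃ i < k,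
      {B : ℤ | B ≠ 0 ∧ B.natAbs ≤ N ∧ f B ∉ A (i, N, B)}.encard ≤ (e N : ℕ∞)) :
    Computable f := by
  have hA2 : Partrec fun x : ℕ × (ℕ × (ℤ × ℕ)) =>
      (A (x.1, x.2.1, x.2.2.1)).map fun v => decide (x.2.2.2 < v) := by
    have a1 : Computable fun x : ℕ × (ℕ × (ℤ × ℕ)) => (x.1, x.2.1, x.2.2.1) :=
      Computable.fst.pair ((Computable.fst.comp Computable.snd).pair
        (Computable.fst.comp (Computable.snd.comp Computable.snd)))
    refine Partrec.map (hA.comp a1) ?_
    exact (Primrec.nat_lt.decide.to_comp).comp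
      (Computable.snd.comp (Computable.snd.comp (Computable.snd.comp Computable.fst))) Computable.snd
  have hsz : Computable fun x : ℤ × ℕ => x.1.natAbs := by
    have : Primrec fun x : ℤ × ℕ => x.1.natAbs := by fun_prop
    exact this.to_comp
  obtain ⟨D, hD, hD2⟩ := adv (X := ℤ × ℕ) (Y := ℤ) (P := fun x => x.1 ≠ 0)
    (T := fun x => x.2 < f x.1) k hA2 Prod.fst hsz int_mul_comp 3
    (by
      rintro ⟨B, m⟩ hB n n' hn
      have hB' : B ≠ 0 := hB
      have hn' : B * (((n + 1) ^ 3 : ℕ) : ℤ) = B * (((n' + 1) ^ 3 : ℕ) : ℤ) := hn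
      have h1 := mul_left_cancel₀ hB' hn'
      have h2 : (n + 1) ^ 3 = (n' + 1) ^ 3 := by exact_mod_cast h1
      have h3 := Nat.pow_left_injective (n := 3) (by norm_num) h2
      omega)
    (by
      rintro ⟨B, m⟩ n hB
      simp only [Int.natAbs_mul, Int.natAbs_natCast]
      exact le_rfl)
    (by
      rintro ⟨B, m⟩ n hB
      exact mul_ne_zero hB (by positivity))
    (by
      rintro ⟨B, m⟩ n hB
      show m < f (B * (((n + 1) ^ 3 : ℕ) : ℤ)) ↔ m < f B
      rw [hf B n hB])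
    he hr hdens
    (by
      intro N hN
      obtain ⟨i, hi, hi2⟩ := h N hN
      refine ⟨i, hi, _, hi2, ?_⟩
      rintro ⟨B, m⟩ hB hs hn
      have h1 : f B ∈ A (i, N, B) := by
        by_contra hc
        exact hn ⟨hB, hs, hc⟩
      refine ⟨decide (m < f B), ?_, by simp⟩
      exact (Part.mem_map_iff _).2 ⟨f B, h1, rfl⟩)
  have hg : Partrec fun B : ℤ => cond (decide (B = 0)) (Part.some 0)
      (Nat.rfind fun m => (D (B, m)).map fun b => !b) := by
    have c1 : Computable fun B : ℤ => decide (B = 0) :=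
      (Primrec.eq.comp Primrec.id (Primrec.const (0 : ℤ))).decide.to_comp
    have c2 : Partrec fun B : ℤ => Nat.rfind fun m => (D (B, m)).map fun b => !b := by
      refine Partrec.rfind (p := fun B m => (D (B, m)).map fun b => !b) ?_
      refine Partrec.map (f := fun x : ℤ × ℕ => D x) (g := fun _ b => !b) hD ?_
      exact (Primrec.not.to_comp.comp Computable.snd).to₂
    exact Partrec.cond c1 (Computable.const 0).partrec c2
  refine Partrec.of_eq (f := fun B : ℤ => cond (decide (B = 0)) (Part.some 0)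
      (Nat.rfind fun m => (D (B, m)).map fun b => !b)) hg fun B => ?_
  by_cases hB : B = 0
  · subst hB
    simp [h0]
  · rw [decide_eq_false hB]
    show (Nat.rfind fun m => (D (B, m)).map fun b => !b) = Part.some (f B)
    refine Part.eq_some_iff.2 (Nat.mem_rfind.2 ?_)
    have h2 : ∀ m, (D (B, m)).map (fun b => !b) = Part.some (!decide (m < f B)) := by
      intro m
      obtain ⟨b, hb, hb2⟩ := hD2 (B, m) hB
      rw [hb, Part.map_some]
      have : b = decide (m < f B) := by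
        rw [Bool.eq_iff_iff, decide_eq_true_eq]
        exact hb2
      rw [this]
    refine ⟨?_, fun {m} hm => ?_⟩
    · rw [h2]
      simp
    · rw [h2]
      simp [hm]

end Pool.Agent.H447.RA
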