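import Pool.Agent.Results.MP_8e0b0b_nt.GeneratorsAndQuartics
import Pool.Graph.R_seed8.Y700.VC
import Pool.Agent.H447.RA.Fun

/-!
# Cubic factors of `A` and square factors of quartic forms
-/

set_option autoImplicit false

open WeierstrassCurve

namespace Pool.Agent.H447.RA

open Pool.Agent.Results.MP_8e0b0b_nt.GeneratorsAndQuartics

lemma closure_equiv {G H : Type} [AddGroup G] [AddGroup H] (f : G ≃+ H) {S : Finset G}
    (h : AddSubgroup.closure (S : Set G) = ⊤) :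
    AddSubgroup.closure ((S.map f.toEquiv.toEmbedding : Finset H) : Set H) = ⊤ := by
  have h1 : ((S.map f.toEquiv.toEmbedding : Finset H) : Set H) = f.toAddMonoidHom '' (S : Set G) := by
    rw [Finset.coe_map]
    rfl
  rw [h1, ← AddMonoidHom.map_closure, h, AddSubgroup.map_top_of_surjective _ f.surjective]

lemma sInf_equiv {G H : Type} [AddGroup G] [AddGroup H] (f : G ≃+ H) :
    sInf {n : ℕ | ∃ S : Finset G, S.card = n ∧ AddSubgroup.closure (S : Set G) = ⊤} =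
    sInf {n : ℕ | ∃ S : Finset H, S.card = n ∧ AddSubgroup.closure (S : Set H) = ⊤} := by
  have key : ∀ {G H : Type} [AddGroup G] [AddGroup H] (f : G ≃+ H) (n : ℕ),
      (∃ S : Finset G, S.card = n ∧ AddSubgroup.closure (S : Set G) = ⊤) →
      (∃ S : Finset H, S.card = n ∧ AddSubgroup.closure (S : Set H) = ⊤) := by
    intro G H _ _ f n ⟨S, h1, h2⟩
    exact ⟨S.map f.toEquiv.toEmbedding, by rw [Finset.card_map, h1], closure_equiv f h2⟩
  congr 1
  ext n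
  exact ⟨key f n, key f.symm n⟩

theorem r_cube (A : ℤ) (n : ℕ) (hA : A ≠ 0) : r (A * (((n + 1) ^ 3 : ℕ) : ℤ)) = r A := by
  have hn : (((n + 1) ^ 3 : ℕ) : ℤ) ≠ 0 := by positivity
  unfold r
  rw [if_neg hA, if_neg (mul_ne_zero hA hn)]
  have hQ : (A : ℚ) ≠ 0 := by exact_mod_cast hA
  have h : Pool.Agent.Y700.VR
      (⟨0, 0, 0, 0, -432 * ((A * (((n + 1) ^ 3 : ℕ) : ℤ) : ℤ) : ℚ) ^ 2⟩ : WeierstrassCurve ℚ)
      (⟨0, 0, 0, 0, -432 * (A : ℚ) ^ 2⟩ : WeierstrassCurve ℚ) ((n : ℚ) + 1) 0 0 0 := by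
    refine ⟨by positivity, ?_, ?_, ?_, ?_, ?_⟩
    · simp
    · simp
    · simp
    · simp
    · simp only
      push_cast
      ring
  have hD : (⟨0, 0, 0, 0, -432 * (A : ℚ) ^ 2⟩ : WeierstrassCurve ℚ).Δ ≠ 0 := by
    simp only [WeierstrassCurve.Δ, WeierstrassCurve.b₂, WeierstrassCurve.b₄, WeierstrassCurve.b₆,
      WeierstrassCurve.b₈]
    intro h0
    apply hQ
    have h1 : (A : ℚ) ^ 4 = 0 := by nlinarith [h0]
    exact pow_eq_zero_iff (by norm_num) |>.1 h1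
  exact (sInf_equiv (h.equiv hD)).symm

/-- multiplication of a form by the square of `n + 1` -/
def sq (t : Coef) (n : ℕ) : Coef :=
  (t.1 * (((n + 1) ^ 2 : ℕ) : ℤ), t.2.1 * (((n + 1) ^ 2 : ℕ) : ℤ), t.2.2.1 * (((n + 1) ^ 2 : ℕ) : ℤ),
    t.2.2.2.1 * (((n + 1) ^ 2 : ℕ) : ℤ), t.2.2.2.2 * (((n + 1) ^ 2 : ℕ) : ℤ))

lemma val_sq (t : Coef) (n : ℕ) (x z : ℚ) : val (sq t n) x z = ((n : ℚ) + 1) ^ 2 * val t x z := by
  unfold val sq
  push_cast
  ring

lemma invI_sq (t : Coef) (n : ℕ) : invI (sq t n) = ((n : ℤ) + 1) ^ 4 * invI t := by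
  unfold invI sq
  push_cast
  ring

lemma invJ_sq (t : Coef) (n : ℕ) : invJ (sq t n) = ((n : ℤ) + 1) ^ 6 * invJ t := by
  unfold invJ sq
  push_cast
  ring

lemma fam_sq {t : Coef} (h : Fam t) (n : ℕ) : Fam (sq t n) := by
  obtain ⟨h1, A, hA, h2⟩ := h
  refine ⟨by rw [invI_sq, h1, mul_zero], A * ((n : ℤ) + 1) ^ 3, mul_ne_zero hA (by positivity), ?_⟩
  rw [invJ_sq, h2]
  ring

lemma has_sq {t : Coef} (h : Fam t) (n : ℕ) : HasPoint (sq t n) ↔ HasPoint t := by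
  have hn : ((n : ℚ) + 1) ≠ 0 := by positivity
  constructor
  · rintro ⟨-, x, z, y, h1, h2⟩
    refine ⟨h, x, z, y / (n + 1), h1, ?_⟩
    rw [val_sq] at h2
    rw [div_pow, h2, mul_comm, mul_div_assoc, div_self (pow_ne_zero 2 hn), mul_one]
  · rintro ⟨-, x, z, y, h1, h2⟩
    refine ⟨fam_sq h n, x, z, (n + 1) * y, h1, ?_⟩
    rw [val_sq, mul_pow, h2]

lemma many_sq {t : Coef} (h : Fam t) (n : ℕ) : ManyPoints (sq t n) ↔ ManyPoints t := by
  have hn : ((n : ℚ) + 1) ≠ 0 := by positivity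
  constructor
  · rintro ⟨-, h1⟩
    refine ⟨h, ?_⟩
    refine Set.infinite_of_injOn_mapsTo (f := fun p : ℚ × ℚ => (p.1, p.2 / (n + 1))) ?_ ?_ h1
    · rintro ⟨x, y⟩ _ ⟨x', y'⟩ _ h3
      simp only [Prod.mk.injEq] at h3
      have := (div_left_inj' hn).1 h3.2
      rw [h3.1, this]
    · rintro ⟨x, y⟩ h2
      have h2' : y ^ 2 = val (sq t n) x 1 := h2
      show (y / (n + 1)) ^ 2 = val t x 1
      rw [val_sq] at h2'
      rw [div_pow, h2', mul_comm, mul_div_assoc, div_self (pow_ne_zero 2 hn), mul_one]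
  · rintro ⟨-, h1⟩
    refine ⟨fam_sq h n, ?_⟩
    refine Set.infinite_of_injOn_mapsTo (f := fun p : ℚ × ℚ => (p.1, (n + 1) * p.2)) ?_ ?_ h1
    · rintro ⟨x, y⟩ _ ⟨x', y'⟩ _ h3
      simp only [Prod.mk.injEq] at h3
      have := mul_left_cancel₀ hn h3.2
      rw [h3.1, this]
    · rintro ⟨x, y⟩ h2
      have h2' : y ^ 2 = val t x 1 := h2
      show ((n + 1) * y) ^ 2 = val (sq t n) x 1
      rw [val_sq, mul_pow, h2']

lemma fam_ne {t : Coef} (h : Fam t) : t ≠ 0 := by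
  rintro rfl
  obtain ⟨-, A, hA, h2⟩ := h
  have h3 : (0 : ℤ) = (864 * A) ^ 2 := by
    rw [← h2]
    simp [invJ]
  have h4 := pow_eq_zero_iff (two_ne_zero) |>.1 h3.symm
  rcases mul_eq_zero.1 h4 with h5 | h5
  · norm_num at h5
  · exact hA h5

lemma sq_inj {t : Coef} (h : t ≠ 0) : Function.Injective (sq t) := by
  intro n n' hn
  have key : ∀ a : ℤ, a ≠ 0 → a * (((n + 1) ^ 2 : ℕ) : ℤ) = a * (((n' + 1) ^ 2 : ℕ) : ℤ) → n = n' := by
    intro a ha h1
    have h2 := mul_left_cancel₀ ha h1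
    have h3 : (n + 1) ^ 2 = (n' + 1) ^ 2 := by exact_mod_cast h2
    have h4 := Nat.pow_left_injective (n := 2) (by norm_num) h3
    omega
  obtain ⟨a, b, c, d, e⟩ := t
  simp only [sq, Prod.mk.injEq] at hn
  obtain ⟨h1, h2, h3, h4, h5⟩ := hn
  by_contra hc
  apply h
  have z : ∀ a : ℤ, a * (((n + 1) ^ 2 : ℕ) : ℤ) = a * (((n' + 1) ^ 2 : ℕ) : ℤ) → a = 0 := by
    intro a ha
    by_contra h0
    exact hc (key a h0 ha)
  rw [z a h1, z b h2, z c h3, z d h4, z e h5]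
  rfl

/-- the largest absolute value of the coefficients -/
def sz (t : Coef) : ℕ :=
  max t.1.natAbs (max t.2.1.natAbs (max t.2.2.1.natAbs (max t.2.2.2.1.natAbs t.2.2.2.2.natAbs)))

lemma sz_sq (t : Coef) (n : ℕ) : sz (sq t n) = sz t * (n + 1) ^ 2 := by
  unfold sz sq
  simp only [Int.natAbs_mul, Int.natAbs_natCast]
  have hm : Monotone fun x : ℕ => x * (n + 1) ^ 2 := fun x y h => Nat.mul_le_mul_right _ h
  have key : ∀ a b : ℕ, max a b * (n + 1) ^ 2 = max (a * (n + 1) ^ 2) (b * (n + 1) ^ 2) :=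
    fun a b => hm.map_max
  rw [key, key, key, key]

lemma sz_comp : Computable sz := by
  have : Primrec sz := by
    unfold sz
    refine Primrec.nat_max.comp (by fun_prop) (Primrec.nat_max.comp (by fun_prop)
      (Primrec.nat_max.comp (by fun_prop) (Primrec.nat_max.comp (by fun_prop) (by fun_prop))))
  exact this.to_comp

lemma sq_comp : Computable fun x : Coef × ℕ => sq x.1 x.2 := by
  have : Primrec fun x : Coef × ℕ => sq x.1 x.2 := by
    unfold sq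
    fun_prop
  exact this.to_comp

end Pool.Agent.H447.RA
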